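import Pool.Agent.LibDimB.CMain

set_option autoImplicit false

namespace Pool.Agent.Results.MP_cfbb7a_pr.FlowNondegenerate

open LibDim
open scoped ContDiff

/-- Uniform perfect matchings of the torus `(ℤ/n)^d`, `n` even, `d ≥ 3`: the variance of the dimer flow
tested against `ψ + ∇G`, with `ψ` a smooth periodic divergence free field, is asymptotically at least
a constant `c = c(d) > 0` times the squared `L²` norm of `ψ`. -/
theorem result (d : ℕ) (hd : 3 ≤ d) :
    ∃ c : ℝ, 0 < c ∧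
      ∀ ψ : (Fin d → ℝ) → (Fin d → ℝ), ContDiff ℝ ∞ ψ → Per ψ →
        (∀ x, ∑ i, pd i (fun z => ψ z i) x = 0) →
      ∀ G : (Fin d → ℝ) → ℝ, ContDiff ℝ ∞ G → Per G →
      ∀ ε : ℝ, 0 < ε →
        ∃ N : ℕ, ∀ n : ℕ, ∀ [NeZero n], N ≤ n → Even n →
          c * (∫ x in Set.Icc (0 : Fin d → ℝ) 1, ∑ i, ψ x i ^ 2) - ε ≤
            expect d n (fun τ => fld d n (fun x i => ψ x i + pd i G x) τ ^ 2) :=
  main_gen d hd

end Pool.Agent.Results.MP_cfbb7a_pr.FlowNondegenerate
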