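import Pool.Agent.LibDim.Main

set_option autoImplicit false

namespace Pool.Agent.Results.MP_cfbb7a_pr.FlowTightness

open LibDim
open scoped ContDiff

/-- Uniform perfect matchings of the torus `(ℤ/n)^d`, `n` even: the limiting variance of the
dimer flow tested against a smooth periodic vector field `φ` is at most `8 d` times the squared
`L²` norm of `φ - ∇G`, for every smooth periodic `G`. -/
theorem result (d : ℕ) (hd : 2 ≤ d)
    (φ : (Fin d → ℝ) → (Fin d → ℝ)) (hφ : ContDiff ℝ ∞ φ) (hφp : Per φ)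
    (G : (Fin d → ℝ) → ℝ) (hG : ContDiff ℝ ∞ G) (hGp : Per G)
    (ε : ℝ) (hε : 0 < ε) :
    ∃ N : ℕ, ∀ n : ℕ, ∀ [NeZero n], N ≤ n → Even n →
      expect d n (fun τ => fld d n φ τ ^ 2) ≤
        8 * d * (∫ x in Set.Icc (0 : Fin d → ℝ) 1, ∑ i, (φ x i - pd i G x) ^ 2) + ε :=
  main d hd φ hφ hφp G hG hGp ε hε

end Pool.Agent.Results.MP_cfbb7a_pr.FlowTightness
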